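import Pool.Agent.R811.Abc.Pair
import Pool.Agent.R811.VS.Detect2

/-!
# Vassiliev invariants separate almost all rings of small tangles from any given diagram

Definitions (`Pool.Agent.R811.Abc.Defs`, `Pool.Agent.R811.Abc.Final`, `Pool.Agent.R811.Abc.Bdd`,
`Pool.Agent.R811.Abc.Pair`; starting library `Pool.Agent.H891R2.RF.Defs`, `Pool.Agent.H891R2.MT.Defs`,
`Pool.Agent.H891R2.Jones.Diagram`):

* `Outer4`: marked points, arcs, crossings and four corners (`corner t r`, `t` top, `r` right). It is used
  for tangles with four ends and for the part of a diagram outside of a box; `size`: the number of
  crossings plus the number of marked points (a tangle diagram with `n` crossings and without closed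
  circles has `4 n + 4` marked points: the ends of the crossings and the corners);
* `IsTangle T`: in every state of `T` two different curves join the four corners in pairs, both
  horizontally or both vertically, never diagonally (every tangle diagram drawn in a rectangle has this
  property);
* `ring W l`: the diagram obtained from the outside `W` by filling its box with the tangles of the list
  `l`, side by side (for instance the ring `T₁ + T₂ + ⋯ + Tₙ` of the tangles, the numerator closure of the
  sum, if `W` consists of two horizontal strands);
* `Orients D U`: the oriented diagram `D` is `U` with some directions; `D.IsClosed`: the pieces of `D` form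
  closed oriented curves;
* `JonesRow q T`: `T` behaves like a row of `q` crossings: up to one unit `± A^m` the Kauffman bracket of
  every diagram which contains `T` is not changed if `T` is replaced by `|q|` crossings in a row, of
  the kind given by the sign of `q`; `IsRow T`: there is such a `q`;
* `CutTangle T`: the bracket of every diagram which contains `T` is a fixed multiple of the bracket of the
  diagram in which `T` is replaced by two vertical strands; `CutOutside W`: the bracket of `W` with a
  tangle in its box is a fixed multiple of the bracket of the vertical closure of the tangle;
* `brV T`: the bracket of the vertical closure of `T`; `IsU f`: `f = ± A^m`.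

Vassiliev invariants: `Pool.Agent.H832R3.VJ.Defs` (`Dia`: an oriented diagram with the finite set of its
marked points; `IsVassiliev n v`: `v` is an invariant of oriented links of order at most `n`;
`Separated d X Y`: some integer valued Vassiliev invariant of order at most `d` has different values on
`X` and `Y`).

Proof: if the normalised brackets of `D = ring W l` and `D'` are equal, then `d ⟨D'⟩` is up to a unit
`∏ x_i · X + ∏ α_i · Y`, where `x_i` and `α_i` are the eigenvalues of `T_i` in the Temperley-Lieb algebra on
two strands.  There are only finitely many pairs `(x_i, α_i)` for tangles of bounded size, and the rows give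
units.  The Mason-Stothers theorem bounds the number of all other tangles.
-/

set_option autoImplicit false

namespace Pool.Agent.Results.MP_31fd3b_gt.BoundedTangles

open LaurentPolynomial Pool.Agent.H891R2.Jones Pool.Agent.H891R2.MT Pool.Agent.H891R2.RF
  Pool.Agent.R811.Abc Pool.Agent.H832R3.VJ

open Classical in
/-- For every `s` there is a number `N` such that the following holds. Let `D` be a closed oriented diagram
which is obtained by filling the box of an outside `W` of size at most `s` with arbitrarily many tangles,
side by side, each of which behaves like a row of crossings or has size at most `s`. Let `D'` be an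
arbitrary oriented diagram with at most `s` crossings and marked points. Then some Vassiliev invariant of
order at most `c + 2 p + c' + 2 p'` (`c`, `c'` crossings and `p`, `p'` marked points of `D`, `D'`) has
different values on `D` and `D'`; or

* at most `N` of the tangles do not behave like rows, and the total number `∑ q i` of the crossings of
  the rows has absolute value at most `N`; or
* `W` or one of the tangles behaves like a multiple of two vertical strands, and the vertical closures of
  all but at most `N` of the tangles have brackets `± A^m`. -/
theorem result (s : ℕ) : ∃ N : ℕ, ∀ (W : Outer4) (l : List Outer4), size W ≤ s →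
    (∀ T ∈ l, IsTangle T) → (∀ T ∈ l, IsRow T ∨ size T ≤ s) →
    ∀ D : Diagram (puts W l).P, Orients D (ring W l) → D.IsClosed →
    ∀ (P' : Type) (_ : Fintype P') (_ : Nonempty P') (D' : Diagram P'),
      D'.crossings.length + Fintype.card P' ≤ s →
      Separated (D.crossings.length + 2 * Fintype.card (puts W l).P +
        (D'.crossings.length + 2 * Fintype.card P')) ⟨_, inferInstance, D⟩ ⟨P', inferInstance, D'⟩ ∨
      (l.countP (fun T => ¬ IsRow T) ≤ N ∧
        ∀ q : Outer4 → ℤ, (∀ T ∈ l, JonesRow (q T) T ∨ (¬ IsRow T ∧ q T = 0)) →
          |(l.map q).sum| ≤ N) ∨
      ((CutOutside W ∨ ∃ T ∈ l, CutTangle T) ∧ l.countP (fun T => ¬ IsU (brV T)) ≤ N) := by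
  obtain ⟨N, hN⟩ := pair s
  refine ⟨N, fun W l hW hT hl D hD _ P' _ _ D' hs => ?_⟩
  have : Nonempty (puts W l).P := ⟨(puts W l).corner false false⟩
  by_cases hf : D.fPoly = D'.fPoly
  · right
    refine hN W l hW hT hl (rhs_of D _ hD D' (2 * s) (by omega) ⟨1, ⟨0, 1, Or.inl rfl, by simp⟩, ?_⟩)
    rw [hf, one_mul]
  · exact Or.inl (Pool.Agent.R811.VS.detect2 D D' hf)

end Pool.Agent.Results.MP_31fd3b_gt.BoundedTangles
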