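import Pool.Agent.R811.Shad.Values

/-!
# Pairs of knot diagrams with the same shadow

Diagrams (starting library `Pool.Agent.H891R2.Jones.Diagram`): `Diagram P` (oriented link diagrams with marked
points `P`), `Diagram.IsClosed` (the pieces fit together to closed oriented curves), `Diagram.fPoly` (the
normalised bracket).  `Pool.Agent.TH561.PK.Defs` (starting library): `IsKnot D` (all marked points are on one
curve).  `Pool.Agent.H832R3.VJ.Defs` (starting library): `Dia` (a closed oriented diagram with its finite set of
marked points), `Separated d X Y` (some integer valued invariant of oriented links, i.e. a function on the
diagrams invariant under Reidemeister moves, which is a Vassiliev invariant of order `≤ d`, differs on `X` and `Y`).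

`Pool.Agent.R811.Cross.Defs`: `Shadow n` (the shadow of an oriented knot diagram with `n` double points: a Gauss
code with directions), `G.diagram s` (the diagram with shadow `G` whose crossing `i` is positive if `s i` and
negative otherwise), `G.Interlaced i j` (running through the curve one meets `j` exactly once between the two
passages through `i`).  `dia G s` is `G.diagram s` together with its marked points.

`Pool.Agent.R811.Shad.Values`: `cutSize G s` is the number of pairs `(i, j)` of interlaced double points with
`s i = true` and `s j = false`, the size of the cut between the positive and the negative crossings in the
interlacement graph.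

Proof.  The second moment of the normalised bracket of `G.diagram s` is a constant of the shadow plus
`48 * cutSize G s` (for classical knots: the coefficient `a₂` of the Conway polynomial is a constant of the
shadow minus half of the size of the cut).  A graph with `m` non-isolated vertices has cuts of at least
`m / 3 + 1` different sizes: let `c` be the number of sizes; take a largest set `X` of vertices with `≥ |X| + 1`
sizes `≤ cut X`; every other vertex `v` has `cut (X ∪ v) ≤ cut X`, and if one adds the other vertices one by one to
`X`, then the size of the cut decreases except at the vertices of an independent set `Z`; and the subsets of an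
independent set of non-isolated vertices have `≥ |Z| + 1` sizes of cuts.  So `m ≤ (c - 1) + (c - 1) + (c - 1)`.
-/

set_option autoImplicit false

namespace Pool.Agent.Results.MP_31fd3b_gt.CutsOfShadows

open Finset LaurentPolynomial Pool.Agent.H891R2.Jones Pool.Agent.H832R3.VJ Pool.Agent.R811.Cross
open Pool.Agent.R811.VS Pool.Agent.R811.Shad

open Classical in
/-- Let `G` be the shadow of an oriented knot diagram with `n` double points.  The `2 ^ n` diagrams `G.diagram s`
are closed oriented knot diagrams, and

* two of them are separated by an integer Vassiliev invariant of order `≤ 2` if the positive crossings give cuts of
  different sizes in the interlacement graph;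
* if `m` of the double points are interlaced with other ones (all `n` if the shadow is a plane one
  without nugatory crossings), then at least `m / 3 + 1` of the diagrams are pairwise separated by integer Vassiliev
  invariants of order `≤ 2`. -/
theorem result (n : ℕ) (G : Shadow n) :
    (∀ s, (G.diagram s).IsClosed ∧ Pool.Agent.TH561.PK.IsKnot (G.diagram s)) ∧
    (∀ s t : Fin n → Bool, cutSize G s ≠ cutSize G t → Separated 2 (dia G s) (dia G t)) ∧
    ∃ S : Finset (Fin n → Bool), #{i | ∃ j, G.Interlaced i j} + 3 ≤ 3 * #S ∧
      ∀ s ∈ S, ∀ t ∈ S, s ≠ t → Separated 2 (dia G s) (dia G t) := by
  refine ⟨fun s => ⟨by convert isClosed G s, isKnot G s⟩, fun s t h => separated_of_cut G h, ?_⟩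
  obtain ⟨S, h1, h2⟩ := exists_many G
  exact ⟨S, h1, fun s hs t ht hst => separated_of_cut G (h2 s hs t ht hst)⟩

end Pool.Agent.Results.MP_31fd3b_gt.CutsOfShadows
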