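import Pool.Agent.R811.Cross.OneSide
import Pool.Agent.R811.VS.Detect2

/-!
# Vassiliev invariants separate diagrams with states which are dominated on one side

From the starting library (`Pool.Agent.H891R2.Jones.Diagram`, `Pool.Agent.H891R2.MT.Defs`,
`Pool.Agent.H891R2.DS.Defs`, `Pool.Agent.H891R2.DS.Final`):

* `Ribbon k`: ribbon graphs with `k` edges; `Ribbon.Planar`: connected and planar; `Γ.link (sg R)`: the
  unoriented link diagram with Tait graph `Γ` and one crossing at every edge, of the kind `-1` for the edges in `R`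
  and `1` for the others (every connected link diagram with at least one crossing is of this form);
  `Orients D U`: `D` is the unoriented diagram `U` with directions; `D.IsClosed`: the pieces form closed oriented
  curves;
* a state is a set `S` of edges (the bands of `Γ` which are kept in the smoothing); `Asm R S`: the set of the
  crossings which have the `A`-smoothing in the state `S`, its complement: those with the `B`-smoothing;
  `stateGraph Γ S`: the state graph; its vertices are the circles of `S`, and every crossing is an edge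
  between the circles which it touches;
* `Dom G M`: every nonempty even subgraph (hence: every cycle) of `G` has at least two more edges
  outside `M` than in `M`;
* `Nugatory Γ e`: the crossing `e` is nugatory (a bridge of the Tait graph or of its dual).

`Pool.Agent.R811.Cross.OneSide`: `IsPositiveSet D P`: `P` is the set of the positive crossings of `D`; `betti Γ S`:
the number of crossings minus the number of circles of the state `S` plus one.  If `Asm R S = P`, then `S` is the
smoothing according to the directions, its circles are the Seifert circles of `D` and its state graph is the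
Seifert graph.

Vassiliev invariants (starting library `Pool.Agent.H832R3.VJ.Defs`; `Dia`: an oriented diagram with the finite
set of its marked points; `IsVassiliev n v`: `v` is an invariant of oriented links of order at most `n`;
`Separated d X Y`: some integer valued Vassiliev invariant of order at most `d` has different values on `X` and
`Y`).

Here: `Diag k`: a connected oriented link diagram with `k` crossings, together with the set `P` of its positive
crossings and a state `S`; `lowNumber`: the number `b - 3 (n₋ - m)`, where `b` is `betti Γ S`, `n₋` the number of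
negative crossings and `m` the number of `B`-smoothings of the state; `highNumber`: the number
`b - 3 (n₊ - m')`, where `n₊` is the number of positive crossings and `m'` the number of `A`-smoothings.
-/

set_option autoImplicit false

namespace Pool.Agent.Results.MP_31fd3b_gt.OneSidedStates

open Finset LaurentPolynomial Pool.Agent.H891R2.Jones Pool.Agent.H891R2.MT Pool.Agent.H891R2.DS
  Pool.Agent.R811.OneSide Pool.Agent.H832R3.VJ
open Pool.Agent.H891R2.MT.T4b (SIn)

/-- a connected oriented link diagram with `k > 0` crossings (with Tait graph `Γ`, kinds of crossings `R`), the set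
`P` of its positive crossings, and a state `S` -/
structure Diag (k : ℕ) where
  Γ : Ribbon k
  planar : Γ.Planar
  pos : 0 < k
  R : Finset (Fin k)
  D : Diagram (Ribbon.Pt (sg R))
  orients : Orients D (Γ.link (sg R))
  closed : D.IsClosed
  P : Finset (Fin k)
  positive : IsPositiveSet D P
  S : Finset (Fin k)

variable {k k' : ℕ}

/-- the diagram with the finite set of its marked points -/
noncomputable def Diag.dia (X : Diag k) : Dia := ⟨Ribbon.Pt (sg X.R), inferInstance, X.D⟩

/-- every cycle of the state graph has at least two more `A`-smoothed than `B`-smoothed crossings -/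
def Diag.MoreA (X : Diag k) : Prop := Dom (stateGraph X.Γ X.S) (Asm X.R X.S)ᶜ

/-- every cycle of the state graph has at least two more `B`-smoothed than `A`-smoothed crossings -/
def Diag.MoreB (X : Diag k) : Prop := Dom (stateGraph X.Γ X.S) (Asm X.R X.S)

/-- `b - 3 (n₋ - m)` -/
noncomputable def Diag.lowNumber (X : Diag k) : ℤ :=
  betti X.Γ X.S - 3 * ((X.Pᶜ.card : ℤ) - ((Asm X.R X.S)ᶜ).card)

/-- `b - 3 (n₊ - m')` -/
noncomputable def Diag.highNumber (X : Diag k) : ℤ :=
  betti X.Γ X.S - 3 * ((X.P.card : ℤ) - (Asm X.R X.S).card)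

/-- the state is the smoothing according to the directions -/
def Diag.IsSeifert (X : Diag k) : Prop := Asm X.R X.S = X.P

theorem length_eq (Γ : Ribbon k) (R : Finset (Fin k)) (D : Diagram (Ribbon.Pt (sg R)))
    (hD : Orients D (Γ.link (sg R))) : D.crossings.length = k := by
  have h := congrArg List.length hD.2
  rw [List.length_map] at h
  rw [h]
  have hs : ∀ e, (sg R e).natAbs = 1 := by
    intro e
    unfold Pool.Agent.H891R2.DS.sg
    split_ifs <;> rfl
  unfold Ribbon.link
  simp [List.length_flatMap, hs]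

theorem card_pt (R : Finset (Fin k)) : Fintype.card (Ribbon.Pt (sg R)) = 4 * k := by
  have hs : ∀ e, (sg R e).natAbs = 1 := by
    intro e
    unfold Pool.Agent.H891R2.DS.sg
    split_ifs <;> rfl
  have h : ∀ e : Fin k, Fintype.card (Fin ((sg R e).natAbs + 1) × Bool) = 4 := by
    intro e
    rw [Fintype.card_prod, Fintype.card_fin, hs, Fintype.card_bool]
  rw [Fintype.card_sigma, Finset.sum_congr rfl fun e _ => h e]
  simp [mul_comm]

theorem Diag.nonempty (X : Diag k) : Nonempty (Ribbon.Pt (sg X.R)) := ⟨⟨⟨0, X.pos⟩, 0, true⟩⟩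

theorem Diag.upper (X : Diag k) (h : X.MoreA) :
    (∀ j, X.D.fPoly.coeff j ≠ 0 → j ≤ -2 * X.lowNumber) ∧ X.D.fPoly.coeff (-2 * X.lowNumber) ≠ 0 := by
  obtain ⟨h1, h2⟩ := Pool.Agent.R811.OneSide.upper X.Γ X.planar X.pos X.R X.S X.P h X.D X.orients X.positive
  have e : -2 * betti X.Γ X.S + 6 * ((X.Pᶜ.card : ℤ) - ((Asm X.R X.S)ᶜ).card) = -2 * X.lowNumber := by
    unfold Diag.lowNumber; ring
  rw [e] at h1 h2
  refine ⟨h1, fun h0 => ?_⟩
  rw [h0] at h2
  norm_num at h2

theorem Diag.lower (X : Diag k) (h : X.MoreB) :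
    (∀ j, X.D.fPoly.coeff j ≠ 0 → 2 * X.highNumber ≤ j) ∧ X.D.fPoly.coeff (2 * X.highNumber) ≠ 0 := by
  obtain ⟨h1, h2⟩ := Pool.Agent.R811.OneSide.lower X.Γ X.planar X.pos X.R X.S X.P h X.D X.orients X.positive
  have e : 2 * betti X.Γ X.S - 6 * ((X.P.card : ℤ) - (Asm X.R X.S).card) = 2 * X.highNumber := by
    unfold Diag.highNumber; ring
  rw [e] at h1 h2
  refine ⟨h1, fun h0 => ?_⟩
  rw [h0] at h2
  norm_num at h2

theorem Diag.sep (X : Diag k) (Y : Diag k') (h : X.D.fPoly ≠ Y.D.fPoly) :
    Separated (9 * (k + k')) X.dia Y.dia := by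
  have := X.nonempty
  have := Y.nonempty
  obtain ⟨n, hn, v, hv⟩ := Pool.Agent.R811.VS.detect2 X.D Y.D h
  refine ⟨n, hn.trans ?_, v, hv⟩
  rw [length_eq X.Γ X.R X.D X.orients, length_eq Y.Γ Y.R Y.D Y.orients, card_pt, card_pt]
  omega

theorem writhe_le {Q : Type} (l : List (Crossing Q)) : |(l.map Crossing.sign).sum| ≤ l.length := by
  induction l with
  | nil => simp
  | cons c l ih =>
    rw [List.map_cons, List.sum_cons, List.length_cons]
    have h1 : |Crossing.sign c| = 1 := by
      unfold Crossing.sign
      split_ifs <;> simp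
    calc |Crossing.sign c + (l.map Crossing.sign).sum| ≤ |Crossing.sign c| + |(l.map Crossing.sign).sum| :=
          abs_add_le _ _
      _ ≤ ((l.length + 1 : ℕ) : ℤ) := by push_cast; linarith

theorem betti_nonneg (X : Diag k) : 0 ≤ betti X.Γ X.S := by
  have hk := X.pos
  have hc1 := Nug.erase_le X.Γ X.planar.1 ⟨0, hk⟩
  have hc2 := Nug.erase_le _ (planar_dual X.Γ X.planar).1 ⟨0, hk⟩
  have h1 : (stateGraph X.Γ X.S).comps (univ.erase ⟨0, hk⟩) ≤ 2 := by
    by_cases heS : (⟨0, hk⟩ : Fin k) ∈ X.S
    · rw [Nug.erase_of_mem X.Γ X.planar X.S _ heS]; omega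
    · rw [Nug.erase_of_not_mem X.Γ X.planar X.S _ heS]; omega
  have h2 := Pool.Agent.H891R2.MT.T3a.mono (stateGraph X.Γ X.S) k ∅ (univ.erase ⟨0, hk⟩) (by
    rw [Finset.card_erase_of_mem (mem_univ _), Finset.card_univ, Fintype.card_fin]; omega)
    (empty_subset _)
  rw [Nug.comps_empty, Finset.card_erase_of_mem (mem_univ _), Finset.card_univ, Fintype.card_fin,
    Finset.card_empty] at h2
  unfold betti
  have : (stateGraph X.Γ X.S).verts ≤ k + 1 := by omega
  have : ((stateGraph X.Γ X.S).verts : ℤ) ≤ k + 1 := by exact_mod_cast this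
  linarith

/-- the exponents of the normalised bracket of a diagram of bounded size -/
theorem range {Q : Type} [Fintype Q] [Nonempty Q] (E : Diagram Q) (j : ℤ) (hj : E.fPoly.coeff j ≠ 0) :
    |j| ≤ 4 * E.crossings.length + 2 * (Fintype.card Q - 1) := by
  have hp1 : 1 ≤ Fintype.card Q := Fintype.card_pos
  have h1 := Pool.Agent.R811.Abc.SIn_bracket E (c := E.crossings.length) (p := Fintype.card Q) le_rfl le_rfl
    (by omega)
  have h2 : SIn (T (-3 * E.writhe) * E.bracket)
      (-3 * E.writhe + -(E.crossings.length + 2 * ((Fintype.card Q : ℤ) - 1)))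
      (-3 * E.writhe + (E.crossings.length + 2 * ((Fintype.card Q : ℤ) - 1))) :=
    Pool.Agent.R811.VS.SIn_mul_T h1
  have h3 : (T (-3 * E.writhe) * E.bracket).coeff j ≠ 0 := by
    intro h0
    apply hj
    unfold Diagram.fPoly
    by_cases hw : Even E.writhe
    · rw [if_pos hw, one_mul]; exact h0
    · rw [if_neg hw, neg_mul, one_mul, neg_mul]
      show -((T (-3 * E.writhe) * E.bracket).coeff j) = 0
      rw [h0, neg_zero]
  obtain ⟨h4, h5⟩ := h2 j h3
  have h6 : |E.writhe| ≤ E.crossings.length := writhe_le E.crossings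
  rw [abs_le] at h6 ⊢
  constructor <;> linarith [h6.1, h6.2]

theorem Diag.low_seifert (X : Diag k) (h : X.IsSeifert) : X.lowNumber = betti X.Γ X.S := by
  unfold Diag.IsSeifert at h
  unfold Diag.lowNumber
  rw [h]; ring

theorem Diag.high_seifert (X : Diag k) (h : X.IsSeifert) : X.highNumber = betti X.Γ X.S := by
  unfold Diag.IsSeifert at h
  unfold Diag.highNumber
  rw [h]; ring

/-- (1), (2) two diagrams with states of the same kind and different numbers; (3) two diagrams with states of
different kinds; (4) a diagram with a dominated state and an arbitrary diagram of bounded size; (5), (6) two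
diagrams with dominated Seifert graphs. -/
theorem result :
    (∀ (k k' : ℕ) (X : Diag k) (Y : Diag k'), X.MoreA → Y.MoreA → X.lowNumber ≠ Y.lowNumber →
      Separated (9 * (k + k')) X.dia Y.dia) ∧
    (∀ (k k' : ℕ) (X : Diag k) (Y : Diag k'), X.MoreB → Y.MoreB → X.highNumber ≠ Y.highNumber →
      Separated (9 * (k + k')) X.dia Y.dia) ∧
    (∀ (k k' : ℕ) (X : Diag k) (Y : Diag k'), X.MoreA → Y.MoreB → 0 < X.lowNumber + Y.highNumber →
      Separated (9 * (k + k')) X.dia Y.dia) ∧
    (∀ (k : ℕ) (X : Diag k) (Q : Type) [Fintype Q] [DecidableEq Q] [Nonempty Q] (E : Diagram Q), E.IsClosed →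
      (X.MoreA ∧ 2 * (E.crossings.length : ℤ) + Fintype.card Q ≤ |X.lowNumber|) ∨
      (X.MoreB ∧ 2 * (E.crossings.length : ℤ) + Fintype.card Q ≤ |X.highNumber|) →
      Separated (9 * k + (E.crossings.length + 2 * Fintype.card Q)) X.dia ⟨Q, inferInstance, E⟩) ∧
    (∀ (k k' : ℕ) (X : Diag k) (Y : Diag k'), X.IsSeifert → Y.IsSeifert →
      (X.MoreA ∧ Y.MoreA) ∨ (X.MoreB ∧ Y.MoreB) → betti X.Γ X.S ≠ betti Y.Γ Y.S →
      Separated (9 * (k + k')) X.dia Y.dia) ∧
    (∀ (k k' : ℕ) (X : Diag k) (Y : Diag k'), X.IsSeifert → Y.IsSeifert → X.MoreA → Y.MoreB →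
      ((∃ e, ¬ Nugatory X.Γ e) ∨ ∃ e, ¬ Nugatory Y.Γ e) → Separated (9 * (k + k')) X.dia Y.dia) := by
  have h1 : ∀ (k k' : ℕ) (X : Diag k) (Y : Diag k'), X.MoreA → Y.MoreA → X.lowNumber ≠ Y.lowNumber →
      Separated (9 * (k + k')) X.dia Y.dia := by
    intro k k' X Y hX hY hn
    refine X.sep Y fun hf => hn ?_
    obtain ⟨a1, a2⟩ := X.upper hX
    obtain ⟨b1, b2⟩ := Y.upper hY
    rw [hf] at a1 a2
    have c1 := a1 _ b2
    have c2 := b1 _ a2
    linarith
  have h2 : ∀ (k k' : ℕ) (X : Diag k) (Y : Diag k'), X.MoreB → Y.MoreB → X.highNumber ≠ Y.highNumber →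
      Separated (9 * (k + k')) X.dia Y.dia := by
    intro k k' X Y hX hY hn
    refine X.sep Y fun hf => hn ?_
    obtain ⟨a1, a2⟩ := X.lower hX
    obtain ⟨b1, b2⟩ := Y.lower hY
    rw [hf] at a1 a2
    have c1 := a1 _ b2
    have c2 := b1 _ a2
    linarith
  have h3 : ∀ (k k' : ℕ) (X : Diag k) (Y : Diag k'), X.MoreA → Y.MoreB → 0 < X.lowNumber + Y.highNumber →
      Separated (9 * (k + k')) X.dia Y.dia := by
    intro k k' X Y hX hY hn
    refine X.sep Y fun hf => ?_
    obtain ⟨a1, a2⟩ := X.upper hX
    obtain ⟨b1, b2⟩ := Y.lower hY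
    rw [hf] at a1 a2
    have c2 := b1 _ a2
    linarith
  refine ⟨h1, h2, h3, ?_, ?_, ?_⟩
  · intro k X Q _ _ _ E _ h
    have := X.nonempty
    have hf : X.D.fPoly ≠ E.fPoly := by
      intro hf
      have hq : 1 ≤ Fintype.card Q := Fintype.card_pos
      rcases h with ⟨hX, hn⟩ | ⟨hX, hn⟩
      · obtain ⟨a1, a2⟩ := X.upper hX
        rw [hf] at a2
        have c := range E _ a2
        rw [abs_mul] at c
        norm_num at c
        linarith
      · obtain ⟨a1, a2⟩ := X.lower hX
        rw [hf] at a2
        have c := range E _ a2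
        rw [abs_mul] at c
        norm_num at c
        linarith
    obtain ⟨n, hn, v, hv⟩ := Pool.Agent.R811.VS.detect2 X.D E hf
    refine ⟨n, hn.trans ?_, v, hv⟩
    rw [length_eq X.Γ X.R X.D X.orients, card_pt]
    omega
  · intro k k' X Y hX hY h hb
    rcases h with ⟨a, b⟩ | ⟨a, b⟩
    · exact h1 k k' X Y a b (by rw [X.low_seifert hX, Y.low_seifert hY]; exact hb)
    · exact h2 k k' X Y a b (by rw [X.high_seifert hX, Y.high_seifert hY]; exact hb)
  · intro k k' X Y hX hY a b h
    refine h3 k k' X Y a b ?_
    rw [X.low_seifert hX, Y.high_seifert hY]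
    have n1 := betti_nonneg X
    have n2 := betti_nonneg Y
    rcases h with ⟨e, he⟩ | ⟨e, he⟩
    · have := betti_pos X.Γ X.planar X.S e he
      linarith
    · have := betti_pos Y.Γ Y.planar Y.S e he
      linarith

end Pool.Agent.Results.MP_31fd3b_gt.OneSidedStates
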