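import Pool.Agent.R811.Abc.Pair
import Pool.Agent.R811.VS.Detect2

/-!
# Vassiliev invariants separate rings of repeated tangles from any given diagram

Definitions (`Pool.Agent.R811.Abc.Defs`, `Pool.Agent.R811.Abc.Final`, `Pool.Agent.R811.Abc.Pair`;
starting library `Pool.Agent.H891R2.RF.Defs`, `Pool.Agent.H891R2.MT.Defs`, `Pool.Agent.H891R2.Jones.Diagram`):

* `Outer4`: marked points, arcs, crossings and four corners (`corner t r`, `t` top, `r` right). It is used
  for tangles with four ends and for the part of a diagram outside of a box;
* `IsTangle T`: in every state of `T` two different curves join the four corners in pairs, both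
  horizontally or both vertically, never diagonally (every tangle diagram drawn in a rectangle has this
  property);
* `ring W l`: the diagram obtained from the outside `W` by filling its box with the tangles of the list
  `l`, side by side (for instance the ring `T₁ + T₂ + ⋯ + Tₙ` of the tangles, the numerator closure of the
  sum, if `W` consists of two horizontal strands);
* `Orients D U`: the oriented diagram `D` is `U` with some directions; `D.IsClosed`: the pieces of `D` form
  closed oriented curves;
* `JonesRow q T`: `T` behaves like a row of `q` crossings: up to one unit `± A^m` the Kauffman bracket of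
  every diagram which contains `T` is not changed if `T` is replaced by `|q|` crossings in a row, of
  the kind given by the sign of `q`;
* `CutOutside W`: the bracket of `W` with a
  tangle in its box is a fixed multiple of the bracket of the vertical closure of the tangle;
* `brV T`: the bracket of the vertical closure of `T`; `IsU f`: `f = ± A^m`.

Vassiliev invariants: `Pool.Agent.H832R3.VJ.Defs` (`Dia`: an oriented diagram with the finite set of its
marked points; `IsVassiliev n v`: `v` is an invariant of oriented links of order at most `n`;
`Separated d X Y`: some integer valued Vassiliev invariant of order at most `d` has different values on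
`X` and `Y`).

Proof: if the normalised brackets of `D = ring W (T_{c 1}, …, T_{c n})` and `D'` are equal, then `d ⟨D'⟩` is
up to a unit `∏ x_i^{k_i} · X + ∏ α_i^{k_i} · Y`, where `x_i` and `α_i` are the eigenvalues of `T_i` in the
Temperley-Lieb algebra on two strands; apply the Mason-Stothers theorem.
-/

set_option autoImplicit false

namespace Pool.Agent.Results.MP_31fd3b_gt.RepeatedTangles

open LaurentPolynomial Pool.Agent.H891R2.Jones Pool.Agent.H891R2.MT Pool.Agent.H891R2.RF
  Pool.Agent.R811.Abc Pool.Agent.H832R3.VJ

/-- Let `T 0, …, T (r-1)` be arbitrary tangles, `c` a word in the letters `0, …, r-1`, `W` an arbitrary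
outside with `C` crossings and `p` marked points, and `D` a closed oriented diagram which is obtained by
filling the box of `W` with the tangles `T_{c 1}, …, T_{c n}`, side by side. Let `D'` be an arbitrary
oriented diagram with `C'` crossings and `p'` marked points. If every `T i` occurs at least
`4 (C + C') + 8 (p + p')` times, then some Vassiliev invariant of order at most the number of crossings
plus twice the number of marked points of `D` and `D'` has different values on `D` and `D'`; or every
`T i` behaves like a row of `q i` crossings; or `W` behaves like a multiple of a vertical cut and the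
vertical closures of all `T i` have brackets `± A^m`. -/
theorem result (r : ℕ) (T : Fin r → Outer4) (hT : ∀ i, IsTangle (T i)) (c : List (Fin r)) (W : Outer4)
    (D : Diagram (puts W (c.map T)).P) (hD : Orients D (ring W (c.map T))) (_hc : D.IsClosed)
    (P' : Type) [Fintype P'] [Nonempty P'] (D' : Diagram P')
    (hc : ∀ i, 4 * (W.crossings.length + D'.crossings.length) +
      8 * (Fintype.card W.P + Fintype.card P') ≤ c.count i) :
    Separated (D.crossings.length + 2 * Fintype.card (puts W (c.map T)).P +
        (D'.crossings.length + 2 * Fintype.card P')) ⟨_, inferInstance, D⟩ ⟨P', inferInstance, D'⟩ ∨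
      (∃ q : Fin r → ℤ, ∀ i, JonesRow (q i) (T i)) ∨
      (CutOutside W ∧ ∀ i, IsU (brV (T i))) := by
  have : Nonempty (puts W (c.map T)).P := ⟨(puts W (c.map T)).corner false false⟩
  by_cases hf : D.fPoly = D'.fPoly
  · right
    have hp : 1 ≤ Fintype.card P' := Fintype.card_pos
    refine rep_pair T hT W c (D'.crossings.length + 2 * (Fintype.card P' - 1)) (fun i => ?_)
      (rhs_of D _ hD D' _ le_rfl ⟨1, ⟨0, 1, Or.inl rfl, by simp⟩, ?_⟩)
    · have := hc i
      omega
    · rw [hf, one_mul]
  · exact Or.inl (Pool.Agent.R811.VS.detect2 D D' hf)

end Pool.Agent.Results.MP_31fd3b_gt.RepeatedTangles
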